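import Mathlib
import Pool.Agent.Q66.RX.Stm

/-!
# Project RX (helper66), JOB CIR
-/

set_option autoImplicit false

namespace Pool.Agent.Q121.RX

open Pool.Agent.Q66.RX
open Topology Filter Set

theorem rr_le_one (z : Circle) : rr z ≤ 1 := by
  have h := Complex.re_le_norm (z : ℂ)
  rw [Circle.norm_coe] at h
  exact h

theorem sq_add (z : Circle) : (z : ℂ).re ^ 2 + (z : ℂ).im ^ 2 = 1 := by
  have h := Circle.normSq_coe z
  rw [Complex.normSq_apply] at h
  nlinarith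

theorem rr_sq (z : Circle) : rr (z ^ 2) = 2 * rr z ^ 2 - 1 := by
  have h := sq_add z
  unfold rr
  rw [Circle.coe_pow, pow_two, Complex.mul_re]
  nlinarith

theorem step (z : Circle) (h : 0 ≤ rr z) : 2 * (1 - rr z) ≤ 1 - rr (z ^ 2) := by
  have h1 := rr_le_one z
  rw [rr_sq]
  nlinarith

theorem pow_bound (z : Circle) (n : ℕ) (h : ∀ k ≤ n, 0 ≤ rr (z ^ (2 ^ k))) :
    ∀ k ≤ n, 2 ^ k * (1 - rr z) ≤ 1 - rr (z ^ (2 ^ k)) := by
  intro k
  induction k with
  | zero => intro _; simp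
  | succ k ih =>
    intro hk
    have h1 := ih (by omega)
    have h2 := step (z ^ (2 ^ k)) (h k (by omega))
    have h3 : (z ^ (2 ^ k)) ^ 2 = z ^ (2 ^ (k + 1)) := by
      rw [← pow_mul, pow_succ]
    rw [h3] at h2
    have h4 : (2 : ℝ) ^ (k + 1) * (1 - rr z) = 2 * (2 ^ k * (1 - rr z)) := by ring
    rw [h4]
    linarith

theorem dist_sq (z : Circle) : dist z 1 ^ 2 = 2 * (1 - rr z) := by
  have h := sq_add z
  have h0 : dist z 1 = dist (z : ℂ) ((1 : Circle) : ℂ) := rfl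
  have h1 : dist z 1 = ‖(z : ℂ) - 1‖ := by
    rw [h0, dist_eq_norm, Circle.coe_one]
  rw [h1, ← Complex.normSq_eq_norm_sq, Complex.normSq_apply]
  simp only [Complex.sub_re, Complex.sub_im, Complex.one_re, Complex.one_im, rr]
  nlinarith

theorem t_CIR : S_CIR := by
  intro V hV
  obtain ⟨ε, hε, hball⟩ := Metric.mem_nhds_iff.1 hV
  obtain ⟨n, hn⟩ := exists_pow_lt_of_lt_one (show (0 : ℝ) < ε ^ 2 / 2 by positivity)
    (show (1 / 2 : ℝ) < 1 by norm_num)
  refine ⟨n, fun z hz => hball ?_⟩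
  rw [Metric.mem_ball]
  have h1 := pow_bound z n hz n le_rfl
  have h2 := hz n le_rfl
  have h3 : (1 - rr z) ≤ (1 / 2) ^ n := by
    have h4 : (0 : ℝ) < 2 ^ n := by positivity
    have h5 : (2 : ℝ) ^ n * (1 - rr z) ≤ 1 := by linarith
    have h6 : ((1 : ℝ) / 2) ^ n = 1 / 2 ^ n := by rw [one_div_pow]
    rw [h6, le_div_iff₀ h4]
    linarith
  have h7 : dist z 1 ^ 2 < ε ^ 2 := by
    rw [dist_sq]
    linarith
  exact lt_of_pow_lt_pow_left₀ 2 hε.le h7
end Pool.Agent.Q121.RX
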