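import Mathlib
import Pool.Agent.Q66.RX.Stm
import Pool.Agent.Q121.RX.CIR

/-!
# Project RX (helper66), JOB EQ
-/

set_option autoImplicit false

namespace Pool.Agent.Q121.RX

open Pool.Agent.Q66.RX
open Topology Filter Set

theorem t_EQ : S_EQ := by
  intro G _ _ _ W hW V hV
  obtain ⟨n, hn⟩ := t_CIR V hV
  refine ⟨⋂ k ∈ Finset.range (n + 1), (fun g : G => g ^ (2 ^ k)) ⁻¹' W, ?_, ?_⟩
  · rw [Filter.biInter_finset_mem]
    intro k _
    apply (continuous_pow (2 ^ k)).continuousAt.preimage_mem_nhds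
    rwa [one_pow]
  · intro f hf g hg
    apply hn
    intro k hk
    rw [← map_pow]
    apply hf
    simp only [mem_iInter] at hg
    exact hg k (Finset.mem_range.2 (by omega))

end Pool.Agent.Q121.RX
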